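import Pool.Agent.H22.FOT.Defs

/-!
# FOT: general lemmas on products of kernels
-/

set_option autoImplicit false

open MeasureTheory Set

namespace Pool.FOT.H97

open Pool.FOT

variable {V Ω : Type}

theorem sVal_meas [MeasurableSpace Ω] {f : Ω → Ω → ℝ} (hf : ∀ x y, f x y = f y x)
    (hm : Measurable (fun z : Ω × Ω => f z.1 z.2)) (e : Sym2 V) :
    Measurable (fun x : V → Ω => sVal f hf x e) := by
  induction e using Sym2.ind with
  | _ i j =>
    have h : Measurable (fun x : V → Ω => (x i, x j)) :=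
      (measurable_pi_apply i).prodMk (measurable_pi_apply j)
    exact hm.comp h

theorem sVal_abs {f : Ω → Ω → ℝ} (hf : ∀ x y, f x y = f y x) (h1 : ∀ x y, |f x y| ≤ 1)
    (x : V → Ω) (e : Sym2 V) : |sVal f hf x e| ≤ 1 := by
  induction e using Sym2.ind with
  | _ i j => exact h1 _ _

theorem sVal_update [DecidableEq V] {f : Ω → Ω → ℝ} (hf : ∀ x y, f x y = f y x) (x : V → Ω)
    (v : V) (t : Ω) (e : Sym2 V) (he : v ∉ e) :
    sVal f hf (Function.update x v t) e = sVal f hf x e := by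
  induction e using Sym2.ind with
  | _ i j =>
    rw [Sym2.mem_iff, not_or] at he
    simp only [sVal_mk]
    rw [Function.update_of_ne (Ne.symm he.1), Function.update_of_ne (Ne.symm he.2)]

theorem prod_meas [MeasurableSpace Ω] {f : Ω → Ω → ℝ} (hf : ∀ x y, f x y = f y x)
    (hm : Measurable (fun z : Ω × Ω => f z.1 z.2)) (A : Finset (Sym2 V)) :
    Measurable (fun x : V → Ω => ∏ e ∈ A, sVal f hf x e) :=
  Finset.measurable_fun_prod _ fun e _ => sVal_meas hf hm e

theorem prod_abs {f : Ω → Ω → ℝ} (hf : ∀ x y, f x y = f y x) (h1 : ∀ x y, |f x y| ≤ 1)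
    (x : V → Ω) (A : Finset (Sym2 V)) : |∏ e ∈ A, sVal f hf x e| ≤ 1 := by
  rw [Finset.abs_prod]
  exact Finset.prod_le_one (fun e _ => abs_nonneg _) fun e _ => sVal_abs hf h1 x e

/-- A product over more edges is smaller. -/
theorem prod_abs_mono {f : Ω → Ω → ℝ} (hf : ∀ x y, f x y = f y x) (h1 : ∀ x y, |f x y| ≤ 1)
    (x : V → Ω) {A B : Finset (Sym2 V)} (h : B ⊆ A) :
    |∏ e ∈ A, sVal f hf x e| ≤ ∏ e ∈ B, |sVal f hf x e| := by
  classical
  rw [Finset.abs_prod, ← Finset.prod_sdiff h]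
  have h2 : ∏ e ∈ A \ B, |sVal f hf x e| ≤ 1 :=
    Finset.prod_le_one (fun e _ => abs_nonneg _) fun e _ => sVal_abs hf h1 x e
  have h3 : 0 ≤ ∏ e ∈ B, |sVal f hf x e| := Finset.prod_nonneg fun e _ => abs_nonneg _
  nlinarith

/-- Bounded measurable functions are integrable. -/
theorem intb {X : Type} [MeasurableSpace X] {μ : Measure X} [IsFiniteMeasure μ] {g : X → ℝ}
    (hg : Measurable g) {C : ℝ} (hC : ∀ x, |g x| ≤ C) : Integrable g μ :=
  Integrable.of_bound hg.aestronglyMeasurable C (Filter.Eventually.of_forall fun x => by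
    rw [Real.norm_eq_abs]; exact hC x)

/-- Cauchy-Schwarz. -/
theorem cs {X : Type} [MeasurableSpace X] {μ : Measure X} [IsFiniteMeasure μ] {a b : X → ℝ}
    (ha : Measurable a) (hb : Measurable b) {Ca Cb : ℝ} (hCa : ∀ x, |a x| ≤ Ca)
    (hCb : ∀ x, |b x| ≤ Cb) :
    (∫ x, a x * b x ∂μ) ^ 2 ≤ (∫ x, a x ^ 2 ∂μ) * ∫ x, b x ^ 2 ∂μ := by
  have ia : Integrable (fun x => a x ^ 2) μ :=
    intb (ha.pow_const 2) (C := Ca ^ 2) fun x => by
      rw [abs_pow]
      exact pow_le_pow_left₀ (abs_nonneg _) (hCa x) 2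
  have ib : Integrable (fun x => b x ^ 2) μ :=
    intb (hb.pow_const 2) (C := Cb ^ 2) fun x => by
      rw [abs_pow]
      exact pow_le_pow_left₀ (abs_nonneg _) (hCb x) 2
  have iab : Integrable (fun x => a x * b x) μ :=
    intb (ha.mul hb) (C := Ca * Cb) fun x => by
      rw [abs_mul]
      exact mul_le_mul (hCa x) (hCb x) (abs_nonneg _) ((abs_nonneg _).trans (hCa x))
  have key : ∀ s t : ℝ, 0 ≤ s ^ 2 * (∫ x, a x ^ 2 ∂μ) - 2 * s * t * (∫ x, a x * b x ∂μ) +
      t ^ 2 * ∫ x, b x ^ 2 ∂μ := by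
    intro s t
    have h0 : 0 ≤ ∫ x, (s * a x - t * b x) ^ 2 ∂μ := integral_nonneg fun x => sq_nonneg _
    have e : (fun x => (s * a x - t * b x) ^ 2) = fun x =>
        s ^ 2 * a x ^ 2 - 2 * s * t * (a x * b x) + t ^ 2 * b x ^ 2 := by
      funext x
      ring
    have h1 : ∫ x, (s ^ 2 * a x ^ 2 - 2 * s * t * (a x * b x) + t ^ 2 * b x ^ 2) ∂μ =
        s ^ 2 * (∫ x, a x ^ 2 ∂μ) - 2 * s * t * (∫ x, a x * b x ∂μ) +
          t ^ 2 * ∫ x, b x ^ 2 ∂μ := by
      have i1 : Integrable (fun x => s ^ 2 * a x ^ 2 - 2 * s * t * (a x * b x)) μ :=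
        (ia.const_mul _).sub (iab.const_mul _)
      rw [← integral_const_mul, ← integral_const_mul, ← integral_const_mul,
        ← integral_sub (ia.const_mul _) (iab.const_mul _),
        ← integral_add i1 (ib.const_mul _)]
    rw [e, h1] at h0
    exact h0
  set A := ∫ x, a x ^ 2 ∂μ
  set B := ∫ x, b x ^ 2 ∂μ
  set C := ∫ x, a x * b x ∂μ
  have hB : 0 ≤ B := integral_nonneg fun x => sq_nonneg _
  rcases hB.lt_or_eq with h | h
  · have := key B C
    have h2 : 0 ≤ B * (A * B - C ^ 2) := by nlinarith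
    nlinarith [nonneg_of_mul_nonneg_right h2 h]
  · rw [← h, mul_zero]
    have h3 := key 1 ((A + 1) / 2 * C)
    have h4 := key 1 0
    rw [← h] at h3
    by_contra hne
    push Not at hne
    have h5 := key 1 ((A + 1) / (2 * C))
    have hC : C ≠ 0 := fun h => by rw [h] at hne; norm_num at hne
    rw [← h] at h5
    have h6 : 2 * 1 * ((A + 1) / (2 * C)) * C = A + 1 := by
      field_simp
    nlinarith

end Pool.FOT.H97
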