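import Pool.Agent.H22.FOT.Defs

/-!
# FOT END: symmetry breaking near `p = 1` for odd girth
-/

set_option autoImplicit false

open MeasureTheory unitInterval Set Filter Topology

namespace Pool.FOT

open Pool.Agent.H99.LowerTail

theorem relEnt_upper97 {p x : ℝ} (hp0 : 0 < p) (hp1 : p < 1) (hx0 : 0 ≤ x) (hx1 : x ≤ 1) :
    relEnt p x ≤ -Real.log p + (1 - x) * (-Real.log (1 - p)) := by
  rw [relEnt_eq hp0 hp1]
  have h1 : x * Real.log x ≤ 0 := Real.mul_log_nonpos hx0 hx1
  have h2 : (1 - x) * Real.log (1 - x) ≤ 0 := Real.mul_log_nonpos (by linarith) (by linarith)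
  have h3 : Real.log p < 0 := Real.log_neg hp0 hp1
  nlinarith

theorem relEnt_lower97 {p x : ℝ} (hp0 : 0 < p) (hp1 : p < 1) (hx0 : 0 ≤ x) (_hx1 : x ≤ 1) :
    -Real.log 2 + (1 - x) * (-Real.log (1 - p)) ≤ relEnt p x := by
  rw [relEnt_eq hp0 hp1]
  have h1 := Real.binEntropy_le_log_two (p := x)
  unfold Real.binEntropy at h1
  rw [Real.log_inv, Real.log_inv] at h1
  have h3 : Real.log p < 0 := Real.log_neg hp0 hp1
  nlinarith

theorem t_end (hL : LTWStmt) : ENDStmt := by
  intro V _ H hH q hq0 hq1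
  obtain ⟨W, c, hc, hWc, hmean, hden⟩ := hL V H hH q hq0 hq1
  -- the scaling factor
  obtain ⟨θ, hθ1, hθc, hθd⟩ : ∃ θ : ℝ, 1 < θ ∧ θ * c ≤ 1 ∧
      θ ^ numEdges H * homDensity H W ≤ q ^ numEdges H := by
    have t1 : Tendsto (fun θ : ℝ => θ * c) (𝓝[>] 1) (𝓝 (1 * c)) :=
      ((continuous_id.mul continuous_const).tendsto 1).mono_left nhdsWithin_le_nhds
    have t2 : Tendsto (fun θ : ℝ => θ ^ numEdges H * homDensity H W) (𝓝[>] 1)
        (𝓝 (1 ^ numEdges H * homDensity H W)) :=
      (((continuous_pow _).mul continuous_const).tendsto 1).mono_left nhdsWithin_le_nhds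
    have e1 : ∀ᶠ θ in 𝓝[>] (1 : ℝ), θ * c < 1 := t1.eventually (gt_mem_nhds (by linarith))
    have e2 : ∀ᶠ θ in 𝓝[>] (1 : ℝ), θ ^ numEdges H * homDensity H W < q ^ numEdges H :=
      t2.eventually (gt_mem_nhds (by rw [one_pow, one_mul]; exact hden))
    have e3 : ∀ᶠ θ in 𝓝[>] (1 : ℝ), 1 < θ := self_mem_nhdsWithin
    obtain ⟨θ, h1, h2, h3⟩ := (e1.and (e2.and e3)).exists
    exact ⟨θ, h3, h1.le, h2.le⟩
  have hθ0 : 0 < θ := by linarith
  have hS1 : ∀ x y, θ * W x y ≤ 1 := fun x y =>
    (mul_le_mul_of_nonneg_left (hWc x y) hθ0.le).trans hθc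
  set S := scale W θ hθ0.le hS1 with hS
  have hSden : homDensity H S ≤ q ^ numEdges H := by
    rw [hS, homDensity_scale]
    exact hθd
  have hlog2 : 0 < Real.log 2 := Real.log_pos (by norm_num)
  set Λ : ℝ := 2 * Real.log 2 / ((θ - 1) * q) with hΛ
  have hδ : 0 < (θ - 1) * q := mul_pos (by linarith) hq0
  refine ⟨max (1 / 2) (1 - Real.exp (-Λ)), ?_, ?_⟩
  · refine max_lt (by norm_num) ?_
    linarith [Real.exp_pos (-Λ)]
  · intro p hp hp1 hmin
    have hp2 : 1 / 2 < p := (le_max_left _ _).trans_lt hp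
    have hp3 : 1 - Real.exp (-Λ) < p := (le_max_right _ _).trans_lt hp
    have hp0 : 0 < p := by linarith
    have h1 := hmin S hSden
    have h2 := relEnt_lower97 hp0 hp1 hq0.le hq1.le
    -- the cost of `S`
    have h3 : cost p S ≤ -Real.log p + (1 - θ * q) * (-Real.log (1 - p)) := by
      have hint : Integrable (fun z : I × I => W z.1 z.2) := integrable_comp continuous_id W
      have h4 : ∫ z : I × I, (-Real.log p + (1 - θ * W z.1 z.2) * (-Real.log (1 - p))) =
          -Real.log p + (1 - θ * q) * (-Real.log (1 - p)) := by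
        have e : (fun z : I × I => -Real.log p + (1 - θ * W z.1 z.2) * (-Real.log (1 - p))) =
            fun z => (-Real.log p + -Real.log (1 - p)) - (θ * (-Real.log (1 - p))) * W z.1 z.2 := by
          funext z
          ring
        rw [e, integral_sub (integrable_const _) (hint.const_mul _), integral_const_mul]
        have : ∫ z : I × I, W z.1 z.2 = q := hmean
        rw [this]
        simp
        ring
      rw [← h4]
      unfold cost
      refine integral_mono (integrable_comp (continuous_relEnt hp0 hp1) S) ?_ fun z => ?_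
      · exact (integrable_const _).add (((integrable_const _).sub (hint.const_mul _)).mul_const _)
      · exact relEnt_upper97 hp0 hp1 (S.nonneg' _ _) (S.le_one' _ _)
    have h5 : -Real.log p < Real.log 2 := by
      have := Real.log_lt_log (by norm_num) hp2
      rw [one_div, Real.log_inv] at this
      linarith
    have h6 : Λ < -Real.log (1 - p) := by
      have h7 : 1 - p < Real.exp (-Λ) := by linarith
      have := Real.log_lt_log (by linarith) h7
      rw [Real.log_exp] at this
      linarith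
    have h7 : (θ - 1) * q * Λ = 2 * Real.log 2 := by
      rw [hΛ, mul_div_cancel₀ _ hδ.ne']
    have h8 : (θ - 1) * q * Λ < (θ - 1) * q * (-Real.log (1 - p)) :=
      mul_lt_mul_of_pos_left h6 hδ
    nlinarith

end Pool.FOT
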