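import Pool.Agent.H97.FOT.Gen

/-!
# FOT LEF: a leaf gives a factor `η`
-/

set_option autoImplicit false

open MeasureTheory Set

namespace Pool.FOT.H97

/-- The square of one edge. -/
theorem sq_edge (h : EVPStmt) {V Ω : Type} [Fintype V] [MeasurableSpace Ω] (μ : Measure Ω)
    [IsProbabilityMeasure μ] (f : Ω → Ω → ℝ) (hf : ∀ x y, f x y = f y x)
    (hm : Measurable (fun z : Ω × Ω => f z.1 z.2)) (e : Sym2 V) (he : ¬ e.IsDiag) :
    ∫ x : V → Ω, sVal f hf x e ^ 2 ∂(Measure.pi fun _ => μ) =
      ∫ z : Ω × Ω, f z.1 z.2 ^ 2 ∂(μ.prod μ) := by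
  induction e using Sym2.ind with
  | _ i j =>
    have hij : i ≠ j := by simpa using he
    have h1 := h V Ω μ i j hij
    rw [← h1.map_eq, integral_map h1.measurable.aemeasurable
      (hm.pow_const 2).aestronglyMeasurable]
    rfl

end Pool.FOT.H97

namespace Pool.FOT

open H97

theorem t_lef (hU : UPDStmt) (hE : EVPStmt) : LEFStmt := by
  classical
  intro V Ω _ _ μ _ A f hf η hm h1 hη hd h3 v w hvw hv
  have hvw' : v ≠ w := by simpa using hd _ hvw
  obtain ⟨e1, e2, he1, he2, h12⟩ : ∃ e1 e2, e1 ∈ A.erase s(v, w) ∧ e2 ∈ A.erase s(v, w) ∧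
      e1 ≠ e2 := by
    have hc : 1 < (A.erase s(v, w)).card := by
      rw [Finset.card_erase_of_mem hvw]
      omega
    obtain ⟨a, ha, b, hb, hab⟩ := Finset.one_lt_card.1 hc
    exact ⟨a, b, ha, hb, hab⟩
  have hU1 := hU V Ω μ v
  have hmeas := prod_meas hf hm A
  -- the integral over the resampled coordinate
  have e0 : sDens μ A f hf = ∫ x : V → Ω, (∫ t, f t (x w) ∂μ) *
      ∏ e ∈ A.erase s(v, w), sVal f hf x e ∂(Measure.pi fun _ => μ) := by
    unfold sDens
    rw [← hU1.map_eq, integral_map hU1.measurable.aemeasurable hmeas.aestronglyMeasurable,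
      hU1.map_eq, integral_prod]
    · refine integral_congr_ae (Filter.Eventually.of_forall fun x => ?_)
      show ∫ t, ∏ e ∈ A, sVal f hf (Function.update x v t) e ∂μ = _
      have : ∀ t, ∏ e ∈ A, sVal f hf (Function.update x v t) e =
          f t (x w) * ∏ e ∈ A.erase s(v, w), sVal f hf x e := by
        intro t
        rw [← Finset.mul_prod_erase A _ hvw]
        congr 1
        · rw [sVal_mk, Function.update_self, Function.update_of_ne hvw'.symm]
        · refine Finset.prod_congr rfl fun e he => ?_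
          refine sVal_update hf x v t e fun hve => ?_
          exact (Finset.mem_erase.1 he).1 (hv e (Finset.mem_erase.1 he).2 hve)
      simp only [this]
      rw [integral_mul_const]
    · exact intb (hmeas.comp hU1.measurable) (C := 1) fun z => prod_abs hf h1 _ A
  have hb : ∀ x : V → Ω, |(∫ t, f t (x w) ∂μ) * ∏ e ∈ A.erase s(v, w), sVal f hf x e| ≤
      η * ((sVal f hf x e1 ^ 2 + sVal f hf x e2 ^ 2) / 2) := by
    intro x
    rw [abs_mul]
    have a1 : |∫ t, f t (x w) ∂μ| ≤ η := by
      have : (fun t => f t (x w)) = fun t => f (x w) t := by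
        funext t
        exact hf _ _
      rw [this]
      exact hη (x w)
    have a2 : |∏ e ∈ A.erase s(v, w), sVal f hf x e| ≤
        (sVal f hf x e1 ^ 2 + sVal f hf x e2 ^ 2) / 2 := by
      have hs : ({e1, e2} : Finset (Sym2 V)) ⊆ A.erase s(v, w) := by
        intro e he
        rcases Finset.mem_insert.1 he with rfl | he
        · exact he1
        · rw [Finset.mem_singleton] at he
          rw [he]
          exact he2
      refine (prod_abs_mono hf h1 x hs).trans ?_
      rw [Finset.prod_pair h12]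
      nlinarith [sq_nonneg (|sVal f hf x e1| - |sVal f hf x e2|), sq_abs (sVal f hf x e1),
        sq_abs (sVal f hf x e2)]
    exact mul_le_mul a1 a2 (abs_nonneg _) ((abs_nonneg _).trans a1)
  have hd' : ∀ e, e ∈ A.erase s(v, w) → ¬ e.IsDiag := fun e he => hd e (Finset.mem_erase.1 he).2
  have hi : ∀ e : Sym2 V, Integrable (fun x : V → Ω => sVal f hf x e ^ 2)
      (Measure.pi fun _ => μ) := fun e =>
    intb ((sVal_meas hf hm e).pow_const 2) (C := 1) fun x => by
      rw [abs_pow]
      exact pow_le_one₀ (abs_nonneg _) (sVal_abs hf h1 x e)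
  rw [e0]
  refine (abs_integral_le_integral_abs).trans ?_
  have hI : Integrable (fun x : V → Ω => η * ((sVal f hf x e1 ^ 2 + sVal f hf x e2 ^ 2) / 2))
      (Measure.pi fun _ => μ) := (((hi e1).add (hi e2)).div_const 2).const_mul η
  refine (integral_mono_of_nonneg (Filter.Eventually.of_forall fun x => abs_nonneg _) hI
    (Filter.Eventually.of_forall hb)).trans ?_
  rw [integral_const_mul, integral_div, integral_add (hi e1) (hi e2),
    sq_edge hE μ f hf hm e1 (hd' e1 he1), sq_edge hE μ f hf hm e2 (hd' e2 he2)]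
  apply le_of_eq
  ring

end Pool.FOT
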