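import Pool.Agent.H97.FOT.LEF

/-!
# FOT PT3: a path of three edges or a triangle gives the cube of the `L²` norm
-/

set_option autoImplicit false

open MeasureTheory Set

namespace Pool.FOT

open H97

theorem t_pt3 (hE : EVPStmt) (hQ : EVQStmt) (hT : EVTStmt) : PT3Stmt := by
  classical
  intro V Ω _ _ μ _ A f hf N hm h1 hN hN2 u v w z huv huw hvz hwv hzu a1 a2 a3
  have f1 : ∀ x y, |(|f x y|)| ≤ 1 := fun x y => by rw [abs_abs]; exact h1 x y
  have fsq : ∀ x y, |f x y ^ 2| ≤ 1 := fun x y => by
    rw [abs_pow]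
    exact pow_le_one₀ (abs_nonneg _) (h1 x y)
  -- the pointwise bound
  have hb : ∀ x : V → Ω, |∏ e ∈ A, sVal f hf x e| ≤
      |f (x u) (x v)| * (|f (x u) (x w)| * |f (x v) (x z)|) := by
    intro x
    have hs : ({s(u, v), s(u, w), s(v, z)} : Finset (Sym2 V)) ⊆ A := by
      intro e he
      simp only [Finset.mem_insert, Finset.mem_singleton] at he
      rcases he with rfl | rfl | rfl
      · exact a1
      · exact a2
      · exact a3
    refine (prod_abs_mono hf h1 x hs).trans ?_
    have n1 : s(u, v) ∉ ({s(u, w), s(v, z)} : Finset (Sym2 V)) := by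
      simp only [Finset.mem_insert, Finset.mem_singleton, Sym2.eq_iff, not_or, not_and]
      refine ⟨⟨fun _ h => hwv h.symm, fun h => absurd h huw⟩, fun h => absurd h huv,
        fun h => absurd h.symm hzu⟩
    have n2 : s(u, w) ∉ ({s(v, z)} : Finset (Sym2 V)) := by
      simp only [Finset.mem_singleton, Sym2.eq_iff, not_or, not_and]
      exact ⟨fun h => absurd h huv, fun h => absurd h.symm hzu⟩
    rw [Finset.prod_insert n1, Finset.prod_insert n2, Finset.prod_singleton]
    exact le_rfl
  have mx : ∀ i : V, Measurable fun x : V → Ω => x i := fun i => measurable_pi_apply i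
  have me : ∀ i j : V, Measurable fun x : V → Ω => |f (x i) (x j)| := by
    intro i j
    have h : Measurable (fun x : V → Ω => (x i, x j)) := (mx i).prodMk (mx j)
    exact continuous_abs.measurable.comp (hm.comp h)
  have hN' : ∫ x : V → Ω, |f (x u) (x v)| ^ 2 ∂(Measure.pi fun _ => μ) = N ^ 2 := by
    have := sq_edge (V := V) hE μ f hf hm s(u, v) (by simpa using huv)
    rw [hN2] at this
    rw [← this]
    refine integral_congr_ae (Filter.Eventually.of_forall fun x => ?_)
    exact sq_abs _
  have hstep : |sDens μ A f hf| ≤ ∫ x : V → Ω,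
      |f (x u) (x v)| * (|f (x u) (x w)| * |f (x v) (x z)|) ∂(Measure.pi fun _ => μ) := by
    unfold sDens
    refine (abs_integral_le_integral_abs).trans ?_
    refine integral_mono_of_nonneg (Filter.Eventually.of_forall fun x => abs_nonneg _) ?_
      (Filter.Eventually.of_forall hb)
    refine intb ((me u v).mul ((me u w).mul (me v z))) (C := 1) fun x => ?_
    rw [abs_mul, abs_mul, abs_abs, abs_abs, abs_abs]
    have b1 := h1 (x u) (x v)
    have b2 := h1 (x u) (x w)
    have b3 := h1 (x v) (x z)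
    exact mul_le_one₀ b1 (by positivity) (mul_le_one₀ b2 (abs_nonneg _) b3)
  refine hstep.trans ?_
  by_cases hwz : w = z
  · -- a triangle
    subst hwz
    have hT1 := hT V Ω μ w u v (Ne.symm huw) hwv huv
    have e0 : ∫ x : V → Ω, |f (x u) (x v)| * (|f (x u) (x w)| * |f (x v) (x w)|)
        ∂(Measure.pi fun _ => μ) =
        ∫ r, ∫ y : Ω × Ω, |f y.1 y.2| * (|f y.1 r| * |f y.2 r|) ∂(μ.prod μ) ∂μ := by
      have mg : Measurable fun q : Ω × Ω × Ω =>
          |f q.2.1 q.2.2| * (|f q.2.1 q.1| * |f q.2.2 q.1|) := by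
        have m1 : Measurable fun q : Ω × Ω × Ω => (q.2.1, q.2.2) :=
          measurable_snd.fst.prodMk measurable_snd.snd
        have m2 : Measurable fun q : Ω × Ω × Ω => (q.2.1, q.1) :=
          measurable_snd.fst.prodMk measurable_fst
        have m3 : Measurable fun q : Ω × Ω × Ω => (q.2.2, q.1) :=
          measurable_snd.snd.prodMk measurable_fst
        exact (continuous_abs.measurable.comp (hm.comp m1)).mul
          ((continuous_abs.measurable.comp (hm.comp m2)).mul
            (continuous_abs.measurable.comp (hm.comp m3)))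
      have h2 : Integrable (fun q : Ω × Ω × Ω =>
          |f q.2.1 q.2.2| * (|f q.2.1 q.1| * |f q.2.2 q.1|)) (μ.prod (μ.prod μ)) := by
        refine intb mg (C := 1) fun q => ?_
        rw [abs_mul, abs_mul, abs_abs, abs_abs, abs_abs]
        have b1 := h1 q.2.1 q.2.2
        have b2 := h1 q.2.1 q.1
        have b3 := h1 q.2.2 q.1
        exact mul_le_one₀ b1 (by positivity) (mul_le_one₀ b2 (abs_nonneg _) b3)
      rw [← integral_prod _ h2, ← hT1.map_eq, integral_map hT1.measurable.aemeasurable
        mg.aestronglyMeasurable]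
    rw [e0]
    have mr : ∀ r, Measurable fun s => f s r := fun r => by
      have h : Measurable (fun s : Ω => (s, r)) := measurable_id.prodMk measurable_const
      exact hm.comp h
    have mab : Measurable fun y : Ω × Ω => |f y.1 y.2| := continuous_abs.measurable.comp hm
    -- the inner integral
    have inner : ∀ r, ∫ y : Ω × Ω, |f y.1 y.2| * (|f y.1 r| * |f y.2 r|) ∂(μ.prod μ) ≤
        N * ∫ s, f s r ^ 2 ∂μ := by
      intro r
      have mb : Measurable fun y : Ω × Ω => |f y.1 r| * |f y.2 r| :=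
        (continuous_abs.measurable.comp ((mr r).comp measurable_fst)).mul
          (continuous_abs.measurable.comp ((mr r).comp measurable_snd))
      have h3 := cs (μ := μ.prod μ) mab mb (Ca := 1) (Cb := 1) (fun y => f1 _ _) (fun y => by
        rw [abs_mul, abs_abs, abs_abs]
        exact mul_le_one₀ (h1 _ _) (abs_nonneg _) (h1 _ _))
      have h4 : ∫ y : Ω × Ω, |f y.1 y.2| ^ 2 ∂(μ.prod μ) = N ^ 2 := by
        rw [← hN2]
        refine integral_congr_ae (Filter.Eventually.of_forall fun x => ?_)
        exact sq_abs _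
      have h5 : ∫ y : Ω × Ω, (|f y.1 r| * |f y.2 r|) ^ 2 ∂(μ.prod μ) =
          (∫ s, f s r ^ 2 ∂μ) ^ 2 := by
        have : (fun y : Ω × Ω => (|f y.1 r| * |f y.2 r|) ^ 2) =
            fun y => f y.1 r ^ 2 * f y.2 r ^ 2 := by
          funext y
          rw [mul_pow, sq_abs, sq_abs]
        rw [this, integral_prod_mul (fun s => f s r ^ 2) (fun s => f s r ^ 2)]
        ring
      rw [h4, h5] at h3
      have h6 : 0 ≤ ∫ s, f s r ^ 2 ∂μ := integral_nonneg fun s => sq_nonneg _
      refine le_of_abs_le (abs_le_of_sq_le_sq (h3.trans (le_of_eq (by ring))) ?_)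
      exact mul_nonneg hN h6
    have msq : Measurable fun y : Ω × Ω => f y.1 y.2 ^ 2 := hm.pow_const 2
    have isq : Integrable (fun y : Ω × Ω => f y.1 y.2 ^ 2) (μ.prod μ) :=
      intb msq (C := 1) fun y => fsq _ _
    have h7 : ∫ r, ∫ s, f s r ^ 2 ∂μ ∂μ = N ^ 2 := by
      rw [← hN2, integral_prod _ isq]
      refine integral_congr_ae (Filter.Eventually.of_forall fun x => ?_)
      refine integral_congr_ae (Filter.Eventually.of_forall fun y => ?_)
      show f y x ^ 2 = f x y ^ 2
      rw [hf]
    have h8 : Integrable (fun r => ∫ s, f s r ^ 2 ∂μ) μ := by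
      have := isq.integral_prod_left
      refine this.congr (Filter.Eventually.of_forall fun x => ?_)
      refine integral_congr_ae (Filter.Eventually.of_forall fun y => ?_)
      show f x y ^ 2 = f y x ^ 2
      rw [hf]
    have h9 : ∫ r, N * (∫ s, f s r ^ 2 ∂μ) ∂μ = N ^ 3 := by
      rw [integral_const_mul, h7]
      ring
    rw [← h9]
    refine integral_mono_of_nonneg (Filter.Eventually.of_forall fun r => ?_)
      (h8.const_mul N) (Filter.Eventually.of_forall inner)
    exact integral_nonneg fun y => mul_nonneg (abs_nonneg _)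
      (mul_nonneg (abs_nonneg _) (abs_nonneg _))
  · -- a path
    have mb : Measurable fun x : V → Ω => |f (x u) (x w)| * |f (x v) (x z)| :=
      (me u w).mul (me v z)
    have h3 := cs (μ := Measure.pi fun _ : V => μ) (me u v) mb (Ca := 1)
      (Cb := 1) (fun x => f1 _ _) (fun x => by
        rw [abs_mul, abs_abs, abs_abs]
        exact mul_le_one₀ (h1 _ _) (abs_nonneg _) (h1 _ _))
    have hQ1 := hQ V Ω μ u w v z huw hvz huv (Ne.symm hzu) hwv hwz
    have msq : Measurable fun y : Ω × Ω => f y.1 y.2 ^ 2 := hm.pow_const 2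
    have mm : Measurable fun q : (Ω × Ω) × (Ω × Ω) => f q.1.1 q.1.2 ^ 2 * f q.2.1 q.2.2 ^ 2 :=
      (msq.comp measurable_fst).mul (msq.comp measurable_snd)
    have h5 : ∫ x : V → Ω, (|f (x u) (x w)| * |f (x v) (x z)|) ^ 2 ∂(Measure.pi fun _ => μ) =
        (N ^ 2) ^ 2 := by
      have e1 : (fun x : V → Ω => (|f (x u) (x w)| * |f (x v) (x z)|) ^ 2) =
          fun x => f (x u) (x w) ^ 2 * f (x v) (x z) ^ 2 := by
        funext x
        rw [mul_pow, sq_abs, sq_abs]
      rw [e1]
      have e2 : ∫ q : (Ω × Ω) × (Ω × Ω), f q.1.1 q.1.2 ^ 2 * f q.2.1 q.2.2 ^ 2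
          ∂((μ.prod μ).prod (μ.prod μ)) = (N ^ 2) ^ 2 := by
        rw [integral_prod_mul (fun y : Ω × Ω => f y.1 y.2 ^ 2) (fun y : Ω × Ω => f y.1 y.2 ^ 2),
          hN2]
        ring
      rw [← e2, ← hQ1.map_eq, integral_map hQ1.measurable.aemeasurable mm.aestronglyMeasurable]
    have h6 : (∫ x : V → Ω, |f (x u) (x v)| * (|f (x u) (x w)| * |f (x v) (x z)|)
        ∂(Measure.pi fun _ => μ)) ^ 2 ≤ (N ^ 3) ^ 2 := by
      refine h3.trans ?_
      rw [hN', h5]
      apply le_of_eq
      ring
    exact le_of_abs_le (abs_le_of_sq_le_sq h6 (by positivity))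

end Pool.FOT
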