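import Pool.Agent.H97.FOT.Gen

/-!
# FOT REG: lower bound for the density of an almost constant kernel
-/

set_option autoImplicit false

open MeasureTheory Set

namespace Pool.FOT

theorem t_reg (hX : EXPStmt) (h1' : SM1Stmt) (h2' : SM2Stmt) (h3' : SM3Stmt) : REGStmt := by
  classical
  intro V Ω _ _ μ _ F q f hf hg η N hq0 hq1 hm h1 hη hN hN2 hd hF
  have hη0 : 0 ≤ η := by
    obtain ⟨x⟩ : Nonempty Ω := nonempty_of_isProbabilityMeasure μ
    exact (abs_nonneg _).trans (hη x)
  set c : ℝ := (η + N) * N ^ 2 with hc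
  have hc0 : 0 ≤ c := mul_nonneg (add_nonneg hη0 hN) (sq_nonneg N)
  set J : ℝ := ∫ z : Ω × Ω, f z.1 z.2 ∂(μ.prod μ) with hJ
  rw [hX V Ω μ F q f hf hg hm h1]
  have key : ∀ A ∈ F.powerset, (if A = ∅ then q ^ F.card else 0) +
      (if A.card = 1 then q ^ (F.card - 1) * J else 0) - c ≤
      q ^ (F.card - A.card) * sDens μ A f hf := by
    intro A hA
    rw [Finset.mem_powerset] at hA
    have hdA : ∀ e ∈ A, ¬ e.IsDiag := fun e he => hd e (hA he)
    have hp0 : 0 ≤ q ^ (F.card - A.card) := pow_nonneg hq0 _
    have hp1 : q ^ (F.card - A.card) ≤ 1 := pow_le_one₀ hq0 hq1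
    rcases Nat.lt_or_ge A.card 3 with h | h
    · interval_cases hA3 : A.card
      · have : A = ∅ := Finset.card_eq_zero.1 hA3
        subst this
        have e : sDens μ (∅ : Finset (Sym2 V)) f hf = 1 := by
          unfold sDens
          simp
        rw [e]
        simp only [if_true, Nat.sub_zero]
        norm_num
        exact hc0
      · have hne : A ≠ ∅ := fun h => by rw [h] at hA3; simp at hA3
        rw [if_neg hne, if_pos rfl, h1' V Ω μ A f hf hm h1 hdA hA3]
        linarith
      · have hne : A ≠ ∅ := fun h => by rw [h] at hA3; simp at hA3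
        rw [if_neg hne, if_neg (by norm_num)]
        have := mul_nonneg hp0 (h2' V Ω μ A f hf hm h1 hdA hA3)
        linarith
    · have hne : A ≠ ∅ := fun h' => by rw [h'] at h; simp at h
      have hne1 : A.card ≠ 1 := by omega
      rw [if_neg hne, if_neg hne1]
      have h4 := h3' V Ω μ A f hf η N hm h1 hη hN hN2 hdA h
      have h5 := neg_abs_le (sDens μ A f hf)
      have h6 : |q ^ (F.card - A.card) * sDens μ A f hf| ≤ c := by
        rw [abs_mul, abs_of_nonneg hp0]
        calc q ^ (F.card - A.card) * |sDens μ A f hf| ≤ 1 * c :=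
              mul_le_mul hp1 h4 (abs_nonneg _) zero_le_one
          _ = c := one_mul c
      have h7 := neg_abs_le (q ^ (F.card - A.card) * sDens μ A f hf)
      linarith
  refine le_trans (le_of_eq ?_) (Finset.sum_le_sum key)
  rw [Finset.sum_sub_distrib, Finset.sum_add_distrib, Finset.sum_ite_eq' F.powerset ∅,
    if_pos (Finset.empty_mem_powerset F), ← Finset.sum_filter, Finset.sum_const, Finset.sum_const,
    Finset.card_powerset, ← Finset.powersetCard_eq_filter, Finset.card_powersetCard,
    Nat.choose_one_right, nsmul_eq_mul, nsmul_eq_mul]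
  push_cast
  ring

end Pool.FOT
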