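import Pool.Agent.H22.FOT.Defs

/-!
# FOT RGZ: symmetry breaking for small `q`
-/

set_option autoImplicit false

open MeasureTheory unitInterval Set Filter Topology

namespace Pool.FOT

open Pool.Agent.H99.LowerTail

theorem t_rgz (hR : RGTStmt) : RGZStmt := by
  intro V _ H hH p hp0 hp1
  have h0 : 0 < relEnt p 0 := relEnt_pos hp0 hp1 le_rfl zero_le_one (by linarith)
  have hcont : Tendsto (relEnt p) (𝓝[>] 0) (𝓝 (relEnt p 0)) :=
    ((continuous_relEnt hp0 hp1).tendsto 0).mono_left nhdsWithin_le_nhds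
  have h1 : ∀ᶠ q in 𝓝[>] (0 : ℝ), relEnt p 0 / (2 : ℕ) < relEnt p q := by
    refine hcont.eventually (lt_mem_nhds ?_)
    push_cast
    linarith
  have h2 : ∀ᶠ q in 𝓝[>] (0 : ℝ), q ∈ Ioo 0 p := Ioo_mem_nhdsGT hp0
  obtain ⟨q, hq1, hq2⟩ := (h1.and h2).exists
  refine ⟨q, hq2.1, hq2.2, fun hmin => ?_⟩
  exact absurd (hR V H 2 (by norm_num) hH p q hq2.1 hq2.2.le hp1 hmin) (not_le.2 hq1)

end Pool.FOT
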