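import Pool.Agent.H97.FOT.Gen

/-!
# FOT SM3: at least three edges
-/

set_option autoImplicit false

open MeasureTheory Set

namespace Pool.FOT

theorem t_sm3 (hL : LEFStmt) (hP : PT3Stmt) : SM3Stmt := by
  classical
  intro V Ω _ _ μ _ A f hf η N hm h1 hη hN hN2 hd h3
  have hη0 : 0 ≤ η := by
    obtain ⟨x⟩ : Nonempty Ω := nonempty_of_isProbabilityMeasure μ
    exact (abs_nonneg _).trans (hη x)
  by_cases hv : ∃ v w : V, s(v, w) ∈ A ∧ ∀ e ∈ A, v ∈ e → e = s(v, w)
  · obtain ⟨v, w, h2, h4⟩ := hv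
    have := hL V Ω μ A f hf η hm h1 hη hd h3 v w h2 h4
    rw [hN2] at this
    refine this.trans ?_
    nlinarith [mul_nonneg hN (sq_nonneg N)]
  · push Not at hv
    obtain ⟨e, he⟩ : A.Nonempty := Finset.card_pos.1 (by omega)
    induction e using Sym2.ind with
    | _ u v =>
      have huv : u ≠ v := by simpa using hd _ he
      obtain ⟨e1, he1, hu1, hne1⟩ := hv u v he
      obtain ⟨w, rfl⟩ : ∃ w, e1 = s(u, w) := by
        obtain ⟨w, hw⟩ := Sym2.mem_iff_exists.1 hu1
        exact ⟨w, hw⟩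
      obtain ⟨e2, he2, hv2, hne2⟩ := hv v u (by rw [Sym2.eq_swap]; exact he)
      obtain ⟨z, rfl⟩ : ∃ z, e2 = s(v, z) := by
        obtain ⟨z, hz⟩ := Sym2.mem_iff_exists.1 hv2
        exact ⟨z, hz⟩
      have huw : u ≠ w := by simpa using hd _ he1
      have hvz : v ≠ z := by simpa using hd _ he2
      have hwv : w ≠ v := fun h => hne1 (by rw [h])
      have hzu : z ≠ u := fun h => hne2 (by rw [h])
      have := hP V Ω μ A f hf N hm h1 hN hN2 u v w z huv huw hvz hwv hzu he he1 he2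
      refine this.trans ?_
      nlinarith [mul_nonneg hη0 (sq_nonneg N)]

end Pool.FOT
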